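import Pool.Agent.H663.SA.Final

/-!
# Non-meager independence is not the maximum strongly admissible geometry

A disproof of Q1 of MP_842576_lc. The group `G` is a countable product of locally compact groups `Γ n`, where `Γ n` is a
union of open pro-`p n` subgroups for distinct primes `p n`, so that all closed subgroups of `G` are products. There is a
strongly admissible ideal scheme on `G` and there are closed subgroups `K₁`, `K₂` of `G` such that `K₁ K₂` belongs to
the ideal of `G` although `K₁ K₂` is comeager in `G`.
-/

set_option autoImplicit false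

open Filter Topology Set
open scoped Pointwise

namespace Pool.Agent.Results.MP_842576_lc.NotMaximum

open Pool.Agent.H663.SA

/-- **Disproof of Q1**: it fails for a Polish group `G`; there are a strongly admissible ideal scheme `I` on `G` and closed
subgroups `K₁`, `K₂` of `G` such that `K₁ K₂` is in the ideal of `G`, but `K₁ K₂` is comeager in `G`. -/
theorem result :
    (¬ ∀ (G : Type) [Group G] [TopologicalSpace G] [IsTopologicalGroup G] [PolishSpace G], Q1 G) ∧
    ∃ (G : Type) (_ : Group G) (_ : TopologicalSpace G) (_ : IsTopologicalGroup G) (_ : PolishSpace G)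
      (I : Subgroup G → Set (Set G)) (K₁ K₂ : Subgroup G),
      StronglyAdmissible I ∧ IsClosed (K₁ : Set G) ∧ IsClosed (K₂ : Set G) ∧
      (K₁ : Set G) * (K₂ : Set G) ∈ I ⊤ ∧ ¬ MeagerIn ⊤ ((K₁ : Set G) * (K₂ : Set G)) ∧
      IsMeagre ((K₁ : Set G) * (K₂ : Set G))ᶜ := by
  constructor
  · intro h
    exact KPLP_not_meager (h (∀ n, GG n) (E (Γ := GG)) (stronglyAdmissible_E allProd_GG) ⊤ KP LP isClosed_univ KP_closed
      LP_closed le_top le_top KPLP_mem)
  · exact ⟨∀ n, GG n, inferInstance, inferInstance, inferInstance, inferInstance, E (Γ := GG), KP, LP,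
      stronglyAdmissible_E allProd_GG, KP_closed, LP_closed, KPLP_mem, KPLP_not_meager, KPLP_comeager⟩

end Pool.Agent.Results.MP_842576_lc.NotMaximum
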